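import Pool.Agent.Y137.SL.Final

/-!
# MP_ee618e_ag: products of several abelian varieties with the same endomorphism fields, and of
arbitrary smooth varieties

Let `K c` be finitely many CM fields whose odd functions on embeddings are absolutely irreducible
and pairwise unrelated (for instance one generic CM field), and let `ϖ c s`, for `s` in a finite set
`S c`, be Weil numbers for `p ^ a` which generate `K c`, with different Newton slopes. For tuples of
`r c` of these numbers for each `c` we determine when their angle rank is maximal: this is so if and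
only if for each `c` the slope functions of the tuple are linearly independent. The tuples for which
this fails are few: at most `(1 + b + ... + b ^ (r c - 1)) / |S c|` of all of them, where `b` is the
number of slopes which occur (`b = 2` for ordinary types, when `|S c|` can be as large as
`2 ^ ([K c : ℚ] / 2)`).

If `A` is an abelian variety over a finitely generated field whose reduction at one place is isogenous
to the product of abelian varieties with Weil numbers in such a tuple outside the small exceptional
sets, and if `U` is an arbitrary smooth variety whose Frobenius eigenvalues are separated from the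
`K c` (by their degree, for instance), then all Tate classes on `A ^ n × U` are combinations of
products of divisor classes on `A ^ n` and of Tate classes on `U`: the Tate conjecture for `U` is
equivalent to the one for `A ^ n × U`. If the ground field is finite and `U` is a point, this says that
the Tate conjecture holds for the abelian varieties `A ^ n`.
-/

namespace Pool.Agent.Results.MP_ee618e_ag.SameFieldProducts

open NumberField Module IntermediateField Pool.Agent.Y137.MV Pool.Agent.Y137.SL

/-- **Tate classes on products of several abelian varieties with the same endomorphism fields and of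
an arbitrary smooth variety.** -/
theorem result {p : ℕ} [Fact p.Prime] {a : ℕ} {C : Type} [Fintype C] {K : C → Type*}
    [∀ c, Field (K c)] [∀ c, NumberField (K c)] [∀ c, IsCMField (K c)]
    (hirr : ∀ c, OddAbsolutelyIrreducible (K c))
    (hun : ∀ c c', c ≠ c' → Unrelated (K c) (K c'))
    {S : C → Type} [∀ c, Finite (S c)] (ϖ : ∀ c, S c → K c)
    (hint : ∀ c s, IsIntegral ℤ (ϖ c s)) (hgen : ∀ c s, ℚ⟮ϖ c s⟯ = ⊤)
    (hw : ∀ c s, ϖ c s * IsCMField.complexConj (K c) (ϖ c s) = (p : K c) ^ a)
    (hinj : ∀ c, Function.Injective fun s => slope p a (ϖ c s))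
    (T : C → Finset ℝ) (hT : ∀ c s τ, slope p a (ϖ c s) τ ∈ T c) (r : C → ℕ) :
    ∃ B : ∀ c, Set (Fin (r c) → S c),
      (∀ c, Nat.card (S c) * Nat.card (B c) ≤
        (∑ i ∈ Finset.range (r c), (T c).card ^ i) * Nat.card (S c) ^ r c) ∧
      ∀ (x : ∀ c, Fin (r c) → S c) (π : ∀ y : (Σ c, Fin (r c)), K y.1),
        (∀ y : (Σ c, Fin (r c)), π y = ϖ y.1 (x y.1 y.2)) →
        (MaximalAngleRank (p ^ a) π ↔ ∀ c, x c ∉ B c) ∧
        ((∀ c, x c ∉ B c) → ∀ (k : Type*) [Field k] [CharZero k]
          (V : Type*) [AddCommGroup V] [Module k V] [FiniteDimensional k V]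
          (M : Type*) [AddCommGroup M] [Module k M] [FiniteDimensional k M]
          (Γ : Type*) [Group Γ] (ρ : Representation k Γ V) (τ : Representation k Γ M) (χ : Γ →* k)
          (γ : Γ), IsPolarised ρ χ γ p a π →
          ∀ f : Polynomial ℚ, f ≠ 0 → Polynomial.aeval (τ γ) (f.map (algebraMap ℚ k)) = 0 →
          (∀ α : ℂ, Polynomial.aeval α f = 0 → ∀ y, Separated p a π α y) →
          ClassesSplit ρ χ τ) := by
  obtain ⟨B, hB, h⟩ := Y137.SL.main hirr hun ϖ hint hw hinj T hT r
  refine ⟨B, hB, fun x π hπ => ?_⟩
  obtain rfl : π = fun y : (Σ c, Fin (r c)) => ϖ y.1 (x y.1 y.2) := funext hπ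
  refine ⟨h x, fun hx => ?_⟩
  intro k _ _ V _ _ _ M _ _ _ Γ _ ρ τ χ γ hp f hf0 hfγ hf
  obtain ⟨hss, ⟨ω, halt, hnd, hωρ⟩, hχ, hγ⟩ := hp
  exact Y137.MV.main ρ τ χ ω halt hnd hωρ hss (fun y => hgen y.1 _) (fun y => hw y.1 _) γ hχ hγ
    hf0 hfγ (Or.inl ((h x).2 hx)) hf

end Pool.Agent.Results.MP_ee618e_ag.SameFieldProducts
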