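import Pool.Agent.Y137.SF.Main

/-!
# The Tate conjecture for all abelian varieties of dimension at most five and for all products of
elliptic curves and abelian surfaces over finite fields

Let `Y` be an abelian variety over a finite field (`RedAV`: over an algebraic closure each abelian
variety is isogenous to the reduction of an abelian variety of CM type, by Honda and Tate). Suppose
that

* the dimension of `Y` is at most five, or
* `Y` is isogenous, over an algebraic closure, to a product of powers of the factors of an abelian
  variety `Z` with elementary relations between the Frobenius eigenvalues
  (`HasElementaryRelationsS`), and of a supersingular abelian variety of any dimension. So `Y` may be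
  **any product of elliptic curves and abelian surfaces**, of any dimension and with any Newton
  polygons; or any product of abelian varieties of dimension at most three, such that any two
  nonisogenous and not supersingular factors of dimension three whose CM fields have the same Galois
  closure have CM fields that are Galois over `ℚ`.

Then all Tate classes on `Y`, in all degrees and over all finite extensions of the ground field, belong
to the system `AlgS` generated by the Tate classes of degree two, by the reductions of the split Weil
classes on abelian fourfolds and sixfolds of CM type, and by the reductions of the Hodge classes of
degree four on products of elliptic curves and abelian surfaces with complex multiplication. All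
these are algebraic, by theorems of Tate, Markman, and Ramón Marí.

The proof for products of surfaces: a relation between the Frobenius eigenvalues gives a relation
between functions on the Galois group `G` obtained from CM types by averaging over the decomposition
group `D`. By an exchange argument each such relation is a combination of relations that come from
four CM types of fields of degree at most four whose sum vanishes before averaging.
-/

namespace Pool.Agent.Results.MP_ee618e_ag.SurfacesAndDimensionFive

open Module Pool.Agent.W495.TA Pool.Agent.W547.KB Pool.Agent.TH117.BL Pool.Agent.Y137.SF

/-- Tate classes on abelian varieties of dimension at most five, or with elementary relations between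
the Frobenius eigenvalues, are generated by divisors, split Weil classes and the reductions of Hodge
classes on products of elliptic curves and abelian surfaces. -/
theorem result (p : ℕ) [Fact p.Prime] (ν : PadicAlgCl p ≃+* ℂ) (Ω : Type) [Field Ω]
    [IsAlgClosed Ω] [CharZero Ω] (Y : RedAV p ν)
    (hY : finrank ℚ Y.X.H1 ≤ 10 ∨
      ∃ Z : RedAV p ν, HasElementaryRelationsS Z ∧ IsPowersTimesSupersingular Z Y)
    (s m : ℕ) (hs : 0 < s) (f : (TM Ω Y) [⋀^Fin (2 * m)]→ₗ[Ω] Ω) (hf : IsTateClass Ω Y s m f) :
    AlgS Ω {4, 6} Y (Fin (2 * m)) f := by
  rcases hY with hY | ⟨Z, hZ, hY⟩
  · exact fiveS Ω Y hY s m hs f hf
  · exact elementaryS Z hZ Ω Y hY s m hs f hf

end Pool.Agent.Results.MP_ee618e_ag.SurfacesAndDimensionFive
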